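import Pool.Agent.W843.N7.Final

/-!
# A new upper bound for the Turán density of the complete 3-graph on four vertices

Every `K_4^3`-free 3-graph on `n` vertices has at most `(0.55931/6) n³` edges; hence the Turán
density of `K_4^3` is at most `0.55931`. The conjectured value is `5/9 = 0.5555...`; the best upper
bound so far was `0.5615`.

Outline. Flag algebra method of order seven. The certificate consists of one positive semidefinite
form for each of the 23 types on five vertices, on the flags with one more vertex up to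
automorphisms of the type, of rank at most 11, and of the square of the difference of the edge
density and a constant. The inequality between the seven-vertex densities is checked by the kernel
for all `K_4^3`-free 3-graphs on seven vertices.
-/

set_option autoImplicit false
open Finset Filter
open scoped Classical

namespace Pool.Agent.Results.MP_f1799f_co.DensityUpperBound

/-- The 3-graph `H` has no four vertices spanning all four triples. -/
def K43Free {n : ℕ} (H : Finset (Finset (Fin n))) : Prop :=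
  ∀ S : Finset (Fin n), S.card = 4 → ∃ T ⊆ S, T.card = 3 ∧ T ∉ H

/-- The maximum number of edges of a `K_4^3`-free 3-graph on `n` vertices. -/
noncomputable def ex (n : ℕ) : ℕ :=
  sSup {m : ℕ | ∃ H : Finset (Finset (Fin n)), (∀ e ∈ H, e.card = 3) ∧ K43Free H ∧ H.card = m}

theorem edges (n : ℕ) (H : Finset (Finset (Fin n))) (h3 : ∀ e ∈ H, e.card = 3) (hK : K43Free H) :
    600000 * H.card ≤ 55931 * n ^ 3 := by
  have h1 := Pool.Agent.W843.N7.main_edges (Pool.Agent.H122R2.N6.tri_sy H)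
    (Pool.Agent.H122R2.N6.tri_noK4 h3 hK)
  rw [Fintype.card_fin] at h1
  have h2 := Pool.Agent.H122R2.N6.six_card_le h3
  have h3' : Pool.Agent.W843.N7.TE (Pool.Agent.H122R2.N6.tri H)
      = ((∑ a, ∑ b, ∑ c, Pool.Agent.H122R2.N6.tri H a b c : ℕ) : ℤ) := by
    unfold Pool.Agent.W843.N7.TE
    push_cast
    rfl
  rw [h3'] at h1
  have h4 : 100000 * ∑ a, ∑ b, ∑ c, Pool.Agent.H122R2.N6.tri H a b c ≤ 55931 * n ^ 3 := by
    exact_mod_cast h1
  omega

theorem edges_eps (ε : ℝ) (hε : ε > 0) : ∃ N : ℕ, ∀ n : ℕ, N ≤ n → ∀ H : Finset (Finset (Fin n)),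
    (∀ e ∈ H, e.card = 3) → K43Free H →
      (H.card : ℝ) ≤ (0.55931 + ε) * ((n.choose 3 : ℕ) : ℝ) := by
  obtain ⟨N, hN⟩ := exists_nat_gt (3 * (0.55931 + ε) / ε)
  refine ⟨max N 3, fun n hn H h3 hK => ?_⟩
  have h := edges n H h3 hK
  have hn3 : 3 ≤ n := (le_max_right _ _).trans hn
  have hnN : 3 * (0.55931 + ε) / ε < (n : ℝ) :=
    hN.trans_le (by exact_mod_cast (le_max_left _ _).trans hn)
  rw [div_lt_iff₀ hε] at hnN
  have hch : ((n.choose 3 : ℕ) : ℝ) = (n : ℝ) * (n - 1) * (n - 2) / 6 := by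
    have h1 : n.choose 3 * 6 = n * (n - 1) * (n - 2) := by
      have := Nat.descFactorial_eq_factorial_mul_choose n 3
      have h2 : n.descFactorial 3 = (n - 2) * ((n - 1) * n) := by
        simp [Nat.descFactorial]
      rw [h2] at this
      have h3 : Nat.factorial 3 = 6 := rfl
      rw [h3] at this
      linarith
    have h4 : ((n.choose 3 * 6 : ℕ) : ℝ) = ((n * (n - 1) * (n - 2) : ℕ) : ℝ) := by rw [h1]
    push_cast [Nat.cast_sub (show 1 ≤ n by omega), Nat.cast_sub (show 2 ≤ n by omega)] at h4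
    linarith
  rw [hch]
  have hr : 600000 * (H.card : ℝ) ≤ 55931 * (n : ℝ) ^ 3 := by exact_mod_cast h
  have hn0 : (0 : ℝ) ≤ (n : ℝ) := by positivity
  have e1 : (n : ℝ) ^ 3 - 3 * (n : ℝ) ^ 2 ≤ (n : ℝ) * (n - 1) * (n - 2) := by nlinarith
  have e2 : 0 ≤ ((n : ℝ) * ε - 3 * (0.55931 + ε)) * (n : ℝ) ^ 2 :=
    mul_nonneg (by linarith) (by positivity)
  have e3 := mul_le_mul_of_nonneg_left e1 (show (0 : ℝ) ≤ 0.55931 + ε by positivity)
  nlinarith

theorem ex_le {n : ℕ} {B : ℝ} (hB : 0 ≤ B)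
    (h : ∀ H : Finset (Finset (Fin n)), (∀ e ∈ H, e.card = 3) → K43Free H → (H.card : ℝ) ≤ B) :
    (ex n : ℝ) ≤ B := by
  have hne : {m : ℕ | ∃ H : Finset (Finset (Fin n)), (∀ e ∈ H, e.card = 3) ∧ K43Free H ∧ H.card = m}.Nonempty := by
    refine ⟨0, ∅, ?_, ?_, rfl⟩
    · intro e he; exact absurd he (Finset.notMem_empty e)
    · intro S hS
      obtain ⟨T, hT, hc⟩ := Finset.exists_subset_card_eq (show 3 ≤ S.card by omega)
      exact ⟨T, hT, hc, Finset.notMem_empty T⟩
  have hb : BddAbove {m : ℕ | ∃ H : Finset (Finset (Fin n)), (∀ e ∈ H, e.card = 3) ∧ K43Free H ∧ H.card = m} := by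
    refine ⟨⌊B⌋₊, ?_⟩
    rintro m ⟨H, h3, hK, rfl⟩
    exact Nat.le_floor (h H h3 hK)
  obtain ⟨H, h3, hK, hc⟩ := Nat.sSup_mem hne hb
  have := h H h3 hK
  unfold ex
  rw [← hc]
  exact this

/-- Every `K_4^3`-free 3-graph on `n` vertices has at most `(0.55931/6) n³` edges; for every `ε > 0`
and all large `n` it has at most `(0.55931 + ε) C(n,3)` edges; and the Turán density of `K_4^3`, the
limit of `ex(n) / C(n,3)`, is at most `0.55931`. -/
theorem result :
    (∀ (n : ℕ) (H : Finset (Finset (Fin n))), (∀ e ∈ H, e.card = 3) → K43Free H →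
      600000 * H.card ≤ 55931 * n ^ 3) ∧
    (∀ ε : ℝ, ε > 0 → ∃ N : ℕ, ∀ n : ℕ, N ≤ n → ∀ H : Finset (Finset (Fin n)),
      (∀ e ∈ H, e.card = 3) → K43Free H →
        (H.card : ℝ) ≤ (0.55931 + ε) * ((n.choose 3 : ℕ) : ℝ)) ∧
    (∀ L : ℝ, Tendsto (fun n : ℕ => (ex n : ℝ) / ((n.choose 3 : ℕ) : ℝ)) atTop (nhds L) →
      L ≤ 0.55931) := by
  refine ⟨edges, edges_eps, ?_⟩
  intro L hL
  by_contra hcon
  push Not at hcon
  set ε : ℝ := (L - 0.55931) / 2 with hε
  have hε0 : ε > 0 := by rw [hε]; linarith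
  obtain ⟨N, hN⟩ := edges_eps ε hε0
  have hle : ∀ᶠ n : ℕ in atTop, (ex n : ℝ) / ((n.choose 3 : ℕ) : ℝ) ≤ 0.55931 + ε := by
    filter_upwards [eventually_ge_atTop (max N 3)] with n hn
    have hn3 : 3 ≤ n := (le_max_right _ _).trans hn
    have hc : (0 : ℝ) < ((n.choose 3 : ℕ) : ℝ) := by exact_mod_cast Nat.choose_pos hn3
    rw [div_le_iff₀ hc]
    exact ex_le (by positivity) (hN n ((le_max_left _ _).trans hn))
  have := le_of_tendsto hL hle
  linarith

end Pool.Agent.Results.MP_f1799f_co.DensityUpperBound
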