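import Pool.Agent.W818.K4.Fin

set_option autoImplicit false

/-!
Upper bounds for the number of edges of a `K_4^3`-free 3-graph with a large independent set (a set
is independent if it contains no edge). For `n ≥ 100000` the conjectured bound `5/9 C(n,3)` holds
if some set of at least `0.57 n` vertices is independent, and the bound `0.5613 C(n,3)`, which is
below the best general upper bound known, if some set of at least `0.53 n` vertices is independent.
-/

namespace Pool.Agent.Results.MP_f1799f_co.LargeIndependentSet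

/-- `G` is a 3-graph on `Fin n`: a set of triples. -/
def ThreeGraph {n : ℕ} (G : Finset (Finset (Fin n))) : Prop := ∀ e ∈ G, e.card = 3

/-- No four vertices span all four triples. -/
def K43Free {n : ℕ} (G : Finset (Finset (Fin n))) : Prop :=
  ∀ S : Finset (Fin n), S.card = 4 → ∃ e ⊆ S, e.card = 3 ∧ e ∉ G

/-- `A` contains no edge of `G`. -/
def Indep {n : ℕ} (G : Finset (Finset (Fin n))) (A : Finset (Fin n)) : Prop := ∀ e ∈ G, ¬ e ⊆ A

theorem result (n : ℕ) (G : Finset (Finset (Fin n))) (h3 : ThreeGraph G) (hK : K43Free G)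
    (A : Finset (Fin n)) (hA : Indep G A) :
    (G.card : ℝ) ≤ A.card * Aᶜ.card * √((A.card : ℝ) ^ 2 + (Aᶜ.card : ℝ) ^ 2) / 2 +
        (√41 - 3) / 36 * (Aᶜ.card : ℝ) ^ 3 ∧
      (100000 ≤ n → 57 * n ≤ 100 * A.card → (G.card : ℝ) ≤ 5 / 9 * (n.choose 3 : ℝ)) ∧
      (100000 ≤ n → 53 * n ≤ 100 * A.card → (G.card : ℝ) ≤ 0.5613 * (n.choose 3 : ℝ)) := by
  classical
  set T : Finset (Finset (Fin n)) := Finset.powersetCard 3 Finset.univ \ G with hTdef
  have hsub : G ⊆ Finset.powersetCard 3 (Finset.univ : Finset (Fin n)) := fun e he =>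
    Finset.mem_powersetCard.2 ⟨Finset.subset_univ _, h3 e he⟩
  have hcard : (T.card : ℝ) = (n.choose 3 : ℝ) - G.card := by
    have h1 : T.card + G.card = n.choose 3 := by
      rw [hTdef, Finset.card_sdiff_add_card_eq_card hsub, Finset.card_powersetCard,
        Finset.card_univ, Fintype.card_fin]
    have h2 : (T.card : ℝ) + G.card = n.choose 3 := by exact_mod_cast h1
    linarith
  have hT3 : ∀ e ∈ T, e.card = 3 := fun e he =>
    (Finset.mem_powersetCard.1 (Finset.mem_sdiff.1 he).1).2
  have hT : ∀ S : Finset (Fin n), S.card = 4 → ∃ e ∈ T, e ⊆ S := by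
    intro S hS
    obtain ⟨e, heS, he3, heG⟩ := hK S hS
    exact ⟨e, Finset.mem_sdiff.2 ⟨Finset.mem_powersetCard.2 ⟨Finset.subset_univ _, he3⟩, heG⟩, heS⟩
  have hind : ∀ e : Finset (Fin n), e ⊆ A → e.card = 3 → e ∈ T := fun e heB he3 =>
    Finset.mem_sdiff.2 ⟨Finset.mem_powersetCard.2 ⟨Finset.subset_univ _, he3⟩,
      fun heG => hA e heG heB⟩
  refine ⟨?_, fun hn ha => ?_, fun hn ha => ?_⟩
  · have h1 := Pool.Agent.W650.TurTwo.main T hT hT3 A hind
    have h2 := Pool.Agent.W818.K4.inner T hT hT3 A hind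
    rw [hcard] at h1
    linarith
  · have h := Pool.Agent.W818.K4.dens T hT hT3 A hind hn 57 ha 0.5550 (5 / 9) (by norm_num)
      (by norm_num) (by norm_num) (by norm_num)
      (fun x1 x2 x3 al p1 p2 p3 c1 c3 c2 l u =>
        Pool.Agent.W818.K4.num57 x1 x2 x3 al p1 p2 p3 c1 c3 c2 (by push_cast at l; linarith)
          (by push_cast at u; linarith))
    rw [hcard] at h
    linarith
  · have h := Pool.Agent.W818.K4.dens T hT hT3 A hind hn 53 ha 0.5612 0.5613 (by norm_num)
      (by norm_num) (by norm_num) (by norm_num)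
      (fun x1 x2 x3 al p1 p2 p3 c1 c3 c2 l u =>
        Pool.Agent.W818.K4.num53 x1 x2 x3 al p1 p2 p3 c1 c3 c2 (by push_cast at l; linarith)
          (by push_cast at u; linarith))
    rw [hcard] at h
    linarith

end Pool.Agent.Results.MP_f1799f_co.LargeIndependentSet
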