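import Pool.Agent.W629.Q4.IneqAC

/-!
# Two sharp inequalities between edges and four-vertex sets of `K_4^3`-free 3-graphs

Let `H` be a `K_4^3`-free 3-graph on `n` vertices and let `N j` be the number of four-element vertex
sets containing exactly `j` edges of `H`. Then

* `(n - 3) |H| ≤ (5/54) n^4 + (21/25) N 1` and
* `(n - 3) |H| + (9/5) N 0 + (37/25) N 1 ≤ (23/216) n^4`.

In densities: `x ≤ 5/9 + 0.21 p_1` and `x + 0.45 p_0 + 0.37 p_1 ≤ 23/36`.
-/

set_option autoImplicit false
open Finset

namespace Pool.Agent.Results.MP_f1799f_co.SharpTradeoff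

/-- `H` is a `K_4^3`-free 3-graph: its members have three elements, and every four vertices contain
a triple that is not a member. -/
def K43Free {n : ℕ} (H : Finset (Finset (Fin n))) : Prop :=
  (∀ s ∈ H, s.card = 3) ∧ ∀ S : Finset (Fin n), S.card = 4 → ∃ s ⊆ S, s.card = 3 ∧ s ∉ H

/-- The number of four-element vertex sets containing exactly `j` members of `H`. -/
def quads {n : ℕ} (H : Finset (Finset (Fin n))) (j : ℕ) : ℕ :=
  (((univ : Finset (Fin n)).powersetCard 4).filter fun S =>
    (H.filter fun s => s ⊆ S).card = j).card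

open Pool.Agent.W629.Q4
open Pool.Agent.H449R2.Fl

theorem quads_eq {n : ℕ} (H : Finset (Finset (Fin n))) (j : ℕ) : N4 H j = quads H j := rfl

/-- For every `K_4^3`-free 3-graph `H` on `n` vertices, with `quads H j` four-element vertex sets
containing exactly `j` edges, both inequalities hold. -/
theorem result (n : ℕ) (H : Finset (Finset (Fin n))) (hH : K43Free H) :
    ((n : ℝ) - 3) * (H.card : ℝ) ≤ 5 / 54 * (n : ℝ) ^ 4 + 21 / 25 * (quads H 1 : ℝ) ∧
    ((n : ℝ) - 3) * (H.card : ℝ) + 9 / 5 * (quads H 0 : ℝ) + 37 / 25 * (quads H 1 : ℝ) ≤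
      23 / 216 * (n : ℝ) ^ 4 := by
  have hA := ineqA hH.1 hH.2
  have hC := ineqC hH.1 hH.2
  have hE := real_edges hH.1 hH.2
  simp only [quads_eq] at hA hC hE
  rw [← hE]
  constructor <;> linarith

end Pool.Agent.Results.MP_f1799f_co.SharpTradeoff
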