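import Pool.Agent.W38.TC.All
import Pool.Agent.W38.TC.Lower

/-!
# The Turán density of `K_4^3` for 3-graphs encoded by a 3-edge-colouring

A 3-graph `H` is encoded by a colouring `c` of the pairs of its vertices with three colours when it
depends only on the (unordered) colour pattern of a triple whether the triple is an edge. There are
ten patterns, so 1024 possible rules. Turán's own construction is of this kind: colour the pairs
inside the parts `V_0, V_1, V_2` with 0, 1, 2, and the pairs between `V_1` and `V_2` with 2, those
between `V_2` and `V_0` with 0, those between `V_0` and `V_1` with 1. The conjectured bound `5/9`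
is proved here for every `K_4^3`-free 3-graph encoded by a colouring with three colours, whatever
the rule is, together with the matching lower bound from Turán's construction: the largest number
of edges in this class is `5/54 n^3 + O(n^2)`.
-/

set_option autoImplicit false
open Finset
open scoped Classical

namespace Pool.Agent.Results.MP_f1799f_co.ThreeColourEncodings

/-- The 3-graph `H` has no four vertices spanning all four triples. -/
def K43Free {n : ℕ} (H : Finset (Finset (Fin n))) : Prop :=
  ∀ S : Finset (Fin n), S.card = 4 → ∃ s ⊆ S, s.card = 3 ∧ s ∉ H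

/-- `H` is encoded by the colouring `c` of the pairs: two triples such that some bijection between
them (the one which `f` induces from `s` to its image) keeps the colours of all pairs are both
edges or both non-edges of `H`. -/
def EncodedBy {n : ℕ} (H : Finset (Finset (Fin n))) (c : Fin n → Fin n → Fin 3) : Prop :=
  ∀ (s : Finset (Fin n)) (f : Fin n → Fin n), s.card = 3 → Set.InjOn f (s : Set (Fin n)) →
    (∀ x ∈ s, ∀ y ∈ s, x ≠ y → c (f x) (f y) = c x y) → (s ∈ H ↔ s.image f ∈ H)

open Pool.Agent.W38.TC in
theorem alikeG_of {n : ℕ} {c : Fin n → Fin n → Fin 3} (hc : ∀ x y, c x y = c y x)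
    {H : Finset (Finset (Fin n))} (hE : EncodedBy H c) :
    AlikeG (fun x y => (c x y : ℕ)) H := by
  intro a b d a' b' d' hab hac hbc hab' hac' hbc' h1 h2 h3
  have h1' : c a b = c a' b' := Fin.ext h1
  have h2' : c a d = c a' d' := Fin.ext h2
  have h3' : c b d = c b' d' := Fin.ext h3
  have g1 : c b' a' = c b a := by rw [hc b' a', hc b a]; exact h1'.symm
  have g2 : c d' a' = c d a := by rw [hc d' a', hc d a]; exact h2'.symm
  have g3 : c d' b' = c d b := by rw [hc d' b', hc d b]; exact h3'.symm
  set f : Fin n → Fin n := fun x => if x = a then a' else if x = b then b' else d' with hf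
  have fa : f a = a' := by rw [hf]; simp
  have fb : f b = b' := by rw [hf]; simp [hab.symm]
  have fd : f d = d' := by rw [hf]; simp [hac.symm, hbc.symm]
  have hcd : ({a, b, d} : Finset (Fin n)).card = 3 := by
    rw [card_insert_of_notMem, card_insert_of_notMem, card_singleton] <;> simp [hab, hac, hbc]
  have h := hE {a, b, d} f hcd ?_ ?_
  · rw [h]
    have : image f {a, b, d} = {a', b', d'} := by
      rw [image_insert, image_insert, image_singleton, fa, fb, fd]
    rw [this]
  · intro x hx y hy hxy
    simp only [coe_insert, coe_singleton, Set.mem_insert_iff, Set.mem_singleton_iff] at hx hy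
    rcases hx with rfl | rfl | rfl <;> rcases hy with rfl | rfl | rfl <;>
      simp only [fa, fb, fd] at hxy <;>
      first
        | rfl
        | exact absurd hxy hab'
        | exact absurd hxy hac'
        | exact absurd hxy hbc'
        | exact absurd hxy.symm hab'
        | exact absurd hxy.symm hac'
        | exact absurd hxy.symm hbc'
  · intro x hx y hy hxy
    simp only [mem_insert, mem_singleton] at hx hy
    rcases hx with rfl | rfl | rfl <;> rcases hy with rfl | rfl | rfl <;>
      simp only [fa, fb, fd] <;>
      first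
        | exact absurd rfl hxy
        | exact h1'.symm
        | exact h2'.symm
        | exact h3'.symm
        | exact g1
        | exact g2
        | exact g3

/-- The upper bound. -/
theorem upper {n : ℕ} (c : Fin n → Fin n → Fin 3) (hc : ∀ x y, c x y = c y x)
    (H : Finset (Finset (Fin n))) (h3 : ∀ e ∈ H, e.card = 3) (hK : K43Free H)
    (hE : EncodedBy H c) :
    (H.card : ℝ) ≤ 5 / 54 * (n : ℝ) ^ 3 + 2000 * (n : ℝ) ^ 2 := by
  have hO : Pool.Agent.W38.TC.Col (fun x y => (c x y : ℕ)) :=
    ⟨fun x y => (c x y).isLt, fun x y => by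
      show (c x y : ℕ) = (c y x : ℕ)
      rw [hc x y]⟩
  exact Pool.Agent.W38.TC.main_ruleG hO h3 hK (alikeG_of hc hE)

open Pool.Agent.W38.TC.Lower in
/-- The lower bound, from Turán's construction. -/
theorem lower (n : ℕ) :
    ∃ (c : Fin n → Fin n → Fin 3) (H : Finset (Finset (Fin n))), (∀ x y, c x y = c y x) ∧
      (∀ e ∈ H, e.card = 3) ∧ K43Free H ∧ EncodedBy H c ∧
      5 / 54 * (n : ℝ) ^ 3 - 2 * (n : ℝ) ^ 2 ≤ (H.card : ℝ) :=
  ⟨fun x y => col (p x) (p y), Pool.Agent.W38.TC.Lower.H, fun x y => col_symm _ _,
    fun _ he => H_card he, fun S hS => H_free S hS,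
    fun s f hs hf h => H_enc s f hs hf h, H_large⟩

/-- **The Turán density of `K_4^3` for 3-graphs encoded by a 3-edge-colouring is `5/9`.** Let `c` be
a colouring of the pairs of `n` vertices with three colours, and let `H` be a `K_4^3`-free 3-graph
on these vertices encoded by `c`. Then `H` has at most `5/54 n^3 + 2000 n^2` edges; and for every
`n` there are such `c` and `H` with at least `5/54 n^3 - 2 n^2` edges. -/
theorem result :
    (∀ (n : ℕ) (c : Fin n → Fin n → Fin 3) (H : Finset (Finset (Fin n))),
      (∀ x y, c x y = c y x) → (∀ e ∈ H, e.card = 3) → K43Free H → EncodedBy H c →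
      (H.card : ℝ) ≤ 5 / 54 * (n : ℝ) ^ 3 + 2000 * (n : ℝ) ^ 2) ∧
    (∀ n : ℕ, ∃ (c : Fin n → Fin n → Fin 3) (H : Finset (Finset (Fin n))),
      (∀ x y, c x y = c y x) ∧ (∀ e ∈ H, e.card = 3) ∧ K43Free H ∧ EncodedBy H c ∧
      5 / 54 * (n : ℝ) ^ 3 - 2 * (n : ℝ) ^ 2 ≤ (H.card : ℝ)) :=
  ⟨fun _ c H hc h3 hK hE => upper c hc H h3 hK hE, lower⟩

end Pool.Agent.Results.MP_f1799f_co.ThreeColourEncodings
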